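import Pool.Agent.H680.HallPoly

/-!
# Ladders in relations

Helper file for `MP_c38931_co.ZariskiOpenIncidence`.
-/

set_option autoImplicit false
set_option linter.unusedSectionVars false

namespace Pool.Agent.H680.HallRank

open Finset

/-- `R` has no ladder with more than `N` steps: there are no points `x_0, …, x_N` and blocks
`b_0, …, b_N` such that `R (x_i) (b_i)` for all `i` and `¬ R (x_j) (b_i)` for all `i < j`. -/
def LadderLE' {P B : Type} (R : P → B → Prop) (N : ℕ) : Prop :=
  ∀ (x : Fin (N + 1) → P) (b : Fin (N + 1) → B),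
    ¬ ((∀ i, R (x i) (b i)) ∧ ∀ i j, i < j → ¬ R (x j) (b i))

section Ladder

variable {P B : Type}

open Classical in
/-- recursive form of the existence of a ladder with `n` steps inside `W` -/
def HasLadder (R : P → B → Prop) : ℕ → Finset P → Prop
  | 0, _ => True
  | n + 1, W => ∃ x ∈ W, ∃ b, R x b ∧ HasLadder R n (W.filter fun y => ¬ R y b)

lemma HasLadder.mono {R : P → B → Prop} : ∀ {n : ℕ} {W W' : Finset P}, W ⊆ W' →
    HasLadder R n W → HasLadder R n W' := by
  classical
  intro n
  induction n with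
  | zero => intro _ _ _ _; trivial
  | succ n ih =>
    rintro W W' hW ⟨x, hx, b, hb, h⟩
    exact ⟨x, hW hx, b, hb, ih (Finset.filter_subset_filter _ hW) h⟩

lemma HasLadder.pred {R : P → B → Prop} : ∀ {n : ℕ} {W : Finset P},
    HasLadder R (n + 1) W → HasLadder R n W := by
  intro n
  induction n with
  | zero => intro _ _; trivial
  | succ n ih =>
    rintro W ⟨x, hx, b, hb, h⟩
    exact ⟨x, hx, b, hb, ih h⟩

lemma HasLadder.le {R : P → B → Prop} {n n' : ℕ} {W : Finset P} (hn : n ≤ n')
    (h : HasLadder R n' W) : HasLadder R n W := by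
  induction n', hn using Nat.le_induction with
  | base => exact h
  | succ n' _ ih => exact ih h.pred

lemma HasLadder.exists_seq {R : P → B → Prop} : ∀ {n : ℕ} {W : Finset P}, HasLadder R n W →
    ∃ (x : Fin n → P) (b : Fin n → B), (∀ i, x i ∈ W) ∧ (∀ i, R (x i) (b i)) ∧
      ∀ i j, i < j → ¬ R (x j) (b i) := by
  classical
  intro n
  induction n with
  | zero => intro W _; exact ⟨Fin.elim0, Fin.elim0, fun i => i.elim0, fun i => i.elim0,
      fun i => i.elim0⟩
  | succ n ih =>
    rintro W ⟨x0, hx0, b0, hb0, h⟩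
    obtain ⟨x, b, h1, h2, h3⟩ := ih h
    refine ⟨Fin.cons x0 x, Fin.cons b0 b, ?_, ?_, ?_⟩
    · intro i
      refine Fin.cases ?_ (fun i => ?_) i
      · simpa using hx0
      · simpa using (Finset.mem_filter.mp (h1 i)).1
    · intro i
      refine Fin.cases ?_ (fun i => ?_) i
      · simpa using hb0
      · simpa using h2 i
    · intro i j hij
      obtain ⟨j, rfl⟩ : ∃ j', j = Fin.succ j' :=
        ⟨j.pred (Fin.ne_zero_of_lt hij), by simp⟩
      revert hij
      refine Fin.cases ?_ (fun i => ?_) i
      · intro _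
        simpa using (Finset.mem_filter.mp (h1 j)).2
      · intro hij
        simpa using h3 i j (by simpa using hij)

lemma HasLadder.of_seq [DecidableEq P] {R : P → B → Prop} : ∀ {n : ℕ} (x : Fin n → P)
    (b : Fin n → B), (∀ i, R (x i) (b i)) → (∀ i j, i < j → ¬ R (x j) (b i)) →
      HasLadder R n (univ.image x) := by
  classical
  intro n
  induction n with
  | zero => intro _ _ _ _; trivial
  | succ n ih =>
    intro x b h1 h2
    refine ⟨x 0, Finset.mem_image_of_mem x (mem_univ 0), b 0, h1 0, ?_⟩
    refine HasLadder.mono ?_ (ih (fun i => x i.succ) (fun i => b i.succ) (fun i => h1 i.succ)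
      (fun i j hij => h2 i.succ j.succ (by simpa using hij)))
    intro y hy
    obtain ⟨i, -, rfl⟩ := Finset.mem_image.mp hy
    exact Finset.mem_filter.mpr ⟨Finset.mem_image_of_mem x (mem_univ _),
      h2 0 i.succ (Fin.succ_pos i)⟩

lemma not_hasLadder {R : P → B → Prop} {N : ℕ} (h : LadderLE' R N) (W : Finset P) :
    ¬ HasLadder R (N + 1) W := by
  intro hL
  obtain ⟨x, b, -, h2, h3⟩ := hL.exists_seq
  exact h x b ⟨h2, h3⟩

open Classical in
/-- the largest number of steps of a ladder inside `W`, for relations with at most `N` steps -/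
noncomputable def ladderRank (R : P → B → Prop) (N : ℕ) (W : Finset P) : ℕ :=
  Nat.findGreatest (fun n => HasLadder R n W) N

lemma ladderRank_le (R : P → B → Prop) (N : ℕ) (W : Finset P) : ladderRank R N W ≤ N := by
  classical
  unfold ladderRank
  exact Nat.findGreatest_le N

lemma ladderRank_mono (R : P → B → Prop) (N : ℕ) {W W' : Finset P} (h : W ⊆ W') :
    ladderRank R N W ≤ ladderRank R N W' := by
  classical
  have h1 : HasLadder R (ladderRank R N W) W :=
    Nat.findGreatest_spec (P := fun n => HasLadder R n W) (Nat.zero_le N) trivial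
  exact Nat.le_findGreatest (ladderRank_le R N W) (h1.mono h)

open Classical in
lemma ladderRank_drop {R : P → B → Prop} {N : ℕ} (h : LadderLE' R N) (W : Finset P) (x : P)
    (b : B) (hx : x ∈ W) (hb : R x b) :
    ladderRank R N (W.filter fun y => ¬ R y b) + 1 ≤ ladderRank R N W := by
  have h1 : HasLadder R (ladderRank R N (W.filter fun y => ¬ R y b))
      (W.filter fun y => ¬ R y b) :=
    Nat.findGreatest_spec (P := fun n => HasLadder R n (W.filter fun y => ¬ R y b))
      (Nat.zero_le N) trivial
  have h2 : HasLadder R (ladderRank R N (W.filter fun y => ¬ R y b) + 1) W :=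
    ⟨x, hx, b, hb, h1⟩
  refine Nat.le_findGreatest ?_ h2
  by_contra hc
  exact not_hasLadder h W (h2.le (by omega))

/-- the rank function for a union of `L` relations -/
noncomputable def ladderSum {L : ℕ} (Q : Fin L → P → B → Prop) (N : ℕ) (W : Finset P) : ℕ :=
  ∑ l, ladderRank (Q l) N W

lemma ladderSum_le {L : ℕ} (Q : Fin L → P → B → Prop) (N : ℕ) (W : Finset P) :
    ladderSum Q N W ≤ L * N := by
  calc ladderSum Q N W ≤ ∑ _l : Fin L, N := Finset.sum_le_sum fun l _ => ladderRank_le _ _ _
    _ = L * N := by simp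

open Classical in
lemma ladderSum_drop {L : ℕ} {R : P → B → Prop} {Q : Fin L → P → B → Prop} {N : ℕ}
    (hQ : ∀ l, LadderLE' (Q l) N) (hR : ∀ x b, R x b ↔ ∃ l, Q l x b) (W : Finset P) (x : P)
    (b : B) (hx : x ∈ W) (hb : R x b) :
    ladderSum Q N (W.filter fun y => ¬ R y b) + 1 ≤ ladderSum Q N W := by
  obtain ⟨l₀, hl₀⟩ := (hR x b).mp hb
  have hmono : ∀ l, ladderRank (Q l) N (W.filter fun y => ¬ R y b) ≤ ladderRank (Q l) N W :=
    fun l => ladderRank_mono _ _ (Finset.filter_subset _ _)
  have hstrict : ladderRank (Q l₀) N (W.filter fun y => ¬ R y b) < ladderRank (Q l₀) N W := by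
    refine lt_of_le_of_lt (ladderRank_mono _ _ ?_) (ladderRank_drop (hQ l₀) W x b hx hl₀)
    intro y hy
    obtain ⟨h1, h2⟩ := Finset.mem_filter.mp hy
    exact Finset.mem_filter.mpr ⟨h1, fun hc => h2 ((hR y b).mpr ⟨l₀, hc⟩)⟩
  exact Finset.sum_lt_sum (fun l _ => hmono l) ⟨l₀, mem_univ _, hstrict⟩

/-- A non-zero pattern of a matrix of rank at most `card S` has no longer ladders. -/
lemma ladderLE_of_factor [Fintype P] [Fintype B] {R : P → B → Prop} {E S : Type} [Field E]
    [Fintype S] (G : P → S → E) (H : B → S → E)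
    (hGH : ∀ x b, R x b ↔ ∑ s, G x s * H b s ≠ 0) : LadderLE' R (Fintype.card S) := by
  classical
  have key : ∀ (n : ℕ) (W : Finset P), HasLadder R n W →
      n ≤ rankSum (L := 1) (E := fun _ => E) (S := fun _ => S) (fun _ => G) W := by
    intro n
    induction n with
    | zero => intro W _; exact Nat.zero_le _
    | succ n ih =>
      rintro W ⟨x, hx, b, hb, h⟩
      have h1 := ih _ h
      have h2 := rankSum_drop (L := 1) (E := fun _ => E) (S := fun _ => S) R
        (fun _ => G) (fun _ => H)
        (fun x b => ⟨fun h => ⟨0, (hGH x b).mp h⟩, fun ⟨_, h⟩ => (hGH x b).mpr h⟩) W x b hx hb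
      have h3 : rankSum (L := 1) (E := fun _ => E) (S := fun _ => S) (fun _ => G)
          (W.filter fun y => ¬ R y b) + 1 ≤
          rankSum (L := 1) (E := fun _ => E) (S := fun _ => S) (fun _ => G) W := by
        convert h2
      omega
  intro x b ⟨h1, h2⟩
  have h3 := key _ _ (HasLadder.of_seq x b h1 h2)
  have h4 := rankSum_le (L := 1) (E := fun _ => E) (S := fun _ => S) (fun _ => G) (univ.image x)
  simp only [Finset.univ_unique, Finset.sum_const, Finset.card_singleton, smul_eq_mul,
    one_mul] at h4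
  omega

end Ladder

end Pool.Agent.H680.HallRank
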