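import Pool.Agent.H680.HallRank

/-!
# Relations of small rank inside the incidence of a symmetric design, with equality of labels

Helper file for `MP_c38931_co.ZariskiOpenIncidence`.
-/

set_option autoImplicit false
set_option linter.unusedSectionVars false

namespace Pool.Agent.H680.HallRank

open Finset

section Mixed

variable {P B : Type} [Fintype P] [Fintype B]
variable {inc : P → B → Prop} {v k lam : ℕ}

open Classical in
lemma card_le_rho (O : P → B → Prop) (rho : Finset P → ℕ)
    (hrho : ∀ (W : Finset P) (x : P) (b : B), x ∈ W → O x b →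
      rho (W.filter fun y => ¬ O y b) + 1 ≤ rho W) (T : Finset P)
    (hT : ∀ x ∈ T, ∃ b, O x b ∧ ∀ y ∈ T, y ≠ x → ¬ O y b) : T.card ≤ rho T := by
  induction T using Finset.induction_on with
  | empty => simp
  | insert a T ha ih =>
    have ih' : T.card ≤ rho T := ih fun x hx => by
      obtain ⟨b, hb, hb'⟩ := hT x (Finset.mem_insert_of_mem hx)
      exact ⟨b, hb, fun y hy => hb' y (Finset.mem_insert_of_mem hy)⟩
    obtain ⟨b, hb, hb'⟩ := hT a (Finset.mem_insert_self a T)
    have h1 := hrho (insert a T) a b (Finset.mem_insert_self a T) hb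
    have h2 : (insert a T).filter (fun y => ¬ O y b) = T := by
      ext y
      simp only [Finset.mem_filter, Finset.mem_insert]
      constructor
      · rintro ⟨rfl | hy, hn⟩
        · exact absurd hb hn
        · exact hy
      · intro hy
        refine ⟨Or.inr hy, hb' y (Finset.mem_insert_of_mem hy) ?_⟩
        rintro rfl
        exact ha hy
    rw [h2] at h1
    rw [Finset.card_insert_of_notMem ha]
    omega

open Classical in
lemma heavy_le (h : IsSymmetricDesign inc v k lam) {Lab : Type} (al : P → Lab) (be : B → Lab)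
    (O : P → B → Prop) (hsub : ∀ x b, al x = be b → O x b → inc x b) (rho : Finset P → ℕ)
    (hrho : ∀ (W : Finset P) (x : P) (b : B), x ∈ W → O x b →
      rho (W.filter fun y => ¬ O y b) + 1 ≤ rho W) (N : ℕ) (hN : ∀ W, rho W ≤ N) (c : Lab) :
    (univ.filter fun x : P => al x = c ∧
      lam * N < (univ.filter fun b => al x = be b ∧ O x b).card).card ≤ N := by
  by_contra hcon
  push Not at hcon
  obtain ⟨T, hTs, hTc⟩ := Finset.exists_subset_card_eq (n := N + 1) hcon
  have hTT : T.card ≤ rho T := by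
    refine card_le_rho O rho hrho T fun x hx => ?_
    obtain ⟨-, hxc, hxl⟩ := Finset.mem_filter.mp (hTs hx)
    set S := univ.filter fun b => al x = be b ∧ O x b with hS
    set bad := (T.erase x).biUnion fun y => univ.filter fun b => inc x b ∧ inc y b with hbad
    have hbadc : bad.card ≤ lam * N := by
      calc bad.card ≤ (T.erase x).card * lam := by
            refine Finset.card_biUnion_le_card_mul _ _ _ fun y hy => ?_
            exact (card_pair h (Finset.ne_of_mem_erase hy).symm).le
        _ = lam * N := by rw [Finset.card_erase_of_mem hx, hTc, Nat.add_sub_cancel, mul_comm]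
    obtain ⟨b, hbS, hbn⟩ := Finset.exists_mem_notMem_of_card_lt_card (lt_of_le_of_lt hbadc hxl)
    obtain ⟨-, hb1, hb2⟩ := Finset.mem_filter.mp hbS
    refine ⟨b, hb2, fun y hy hyx hOy => hbn ?_⟩
    obtain ⟨-, hyc, -⟩ := Finset.mem_filter.mp (hTs hy)
    refine Finset.mem_biUnion.mpr ⟨y, Finset.mem_erase.mpr ⟨hyx, hy⟩, ?_⟩
    refine Finset.mem_filter.mpr ⟨mem_univ _, hsub x b hb1 hb2, hsub y b ?_ hOy⟩
    rw [hyc, ← hxc, hb1]
  have := hN T
  omega

open Classical in
/-- **A relation inside the incidence which is the intersection of an equality of labels and a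
relation of rank at most `N` has at most `(lam + 1) N v` pairs.** -/
theorem layer_bound (h : IsSymmetricDesign inc v k lam) {Lab : Type} (al : P → Lab)
    (be : B → Lab) (O : P → B → Prop) (hsub : ∀ x b, al x = be b → O x b → inc x b)
    (rho : Finset P → ℕ)
    (hrho : ∀ (W : Finset P) (x : P) (b : B), x ∈ W → O x b →
      rho (W.filter fun y => ¬ O y b) + 1 ≤ rho W) (N : ℕ) (hN : ∀ W, rho W ≤ N) :
    (univ.filter fun p : P × B => al p.1 = be p.2 ∧ O p.1 p.2).card ≤ (lam + 1) * N * v := by
  set heavy : P → Prop := fun x =>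
    lam * N < (univ.filter fun b => al x = be b ∧ O x b).card with hheavy
  have hcP : (univ : Finset P).card = v := by rw [card_univ, ← Nat.card_eq_fintype_card, h.1]
  have hcB : (univ : Finset B).card = v := by rw [card_univ, ← Nat.card_eq_fintype_card, h.2.1]
  -- light points
  have h1 : (univ.filter fun p : P × B => (al p.1 = be p.2 ∧ O p.1 p.2) ∧ ¬ heavy p.1).card ≤
      lam * N * v := by
    rw [card_filter, Fintype.sum_prod_type]
    calc (∑ x : P, ∑ b : B, if (al x = be b ∧ O x b) ∧ ¬ heavy x then 1 else 0)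
        ≤ ∑ x : P, lam * N := by
          refine Finset.sum_le_sum fun x _ => ?_
          by_cases hx : heavy x
          · simp [hx]
          · simp only [hx, not_false_iff, and_true]
            rw [← card_filter]
            exact not_lt.mp hx
      _ = lam * N * v := by rw [sum_const, hcP, smul_eq_mul, mul_comm]
  -- heavy points
  have h2 : (univ.filter fun p : P × B => (al p.1 = be p.2 ∧ O p.1 p.2) ∧ heavy p.1).card ≤
      N * v := by
    rw [card_filter, Fintype.sum_prod_type_right]
    calc (∑ b : B, ∑ x : P, if (al x = be b ∧ O x b) ∧ heavy x then 1 else 0)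
        ≤ ∑ b : B, N := by
          refine Finset.sum_le_sum fun b _ => ?_
          rw [← card_filter]
          refine le_trans (Finset.card_le_card ?_) (heavy_le h al be O hsub rho hrho N hN (be b))
          intro x hx
          obtain ⟨-, ⟨hx1, -⟩, hx2⟩ := Finset.mem_filter.mp hx
          exact Finset.mem_filter.mpr ⟨mem_univ _, hx1, hx2⟩
      _ = N * v := by rw [sum_const, hcB, smul_eq_mul, mul_comm]
  have h3 : (univ.filter fun p : P × B => al p.1 = be p.2 ∧ O p.1 p.2) ⊆
      (univ.filter fun p : P × B => (al p.1 = be p.2 ∧ O p.1 p.2) ∧ ¬ heavy p.1) ∪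
      (univ.filter fun p : P × B => (al p.1 = be p.2 ∧ O p.1 p.2) ∧ heavy p.1) := by
    intro p hp
    have hp' := (Finset.mem_filter.mp hp).2
    by_cases hh : heavy p.1
    · exact Finset.mem_union_right _ (Finset.mem_filter.mpr ⟨mem_univ _, hp', hh⟩)
    · exact Finset.mem_union_left _ (Finset.mem_filter.mpr ⟨mem_univ _, hp', hh⟩)
  calc (univ.filter fun p : P × B => al p.1 = be p.2 ∧ O p.1 p.2).card
      ≤ lam * N * v + N * v :=
        (Finset.card_le_card h3).trans ((Finset.card_union_le _ _).trans (Nat.add_le_add h1 h2))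
    _ = (lam + 1) * N * v := by ring

end Mixed

section Compare

/-- the label of the smaller number at level `j` -/
def lowLab (j a : ℕ) : ℕ := if (a / 2 ^ j) % 2 = 0 then a / 2 ^ j + 1 else 0

/-- the label of the larger number at level `j` -/
def highLab (j b : ℕ) : ℕ := if (b / 2 ^ j) % 2 = 1 then b / 2 ^ j else 2

lemma lab_eq_iff (j a b : ℕ) :
    lowLab j a = highLab j b ↔ (a / 2 ^ j) % 2 = 0 ∧ b / 2 ^ j = a / 2 ^ j + 1 := by
  unfold lowLab highLab
  generalize a / 2 ^ j = p
  generalize b / 2 ^ j = q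
  by_cases h1 : p % 2 = 0 <;> by_cases h2 : q % 2 = 1
  · rw [if_pos h1, if_pos h2]; omega
  · rw [if_pos h1, if_neg h2]; omega
  · rw [if_neg h1, if_pos h2]; omega
  · rw [if_neg h1, if_neg h2]; omega

/-- A comparison is a disjunction of few equalities of labels. -/
lemma lt_iff_exists_lab (n : ℕ) : ∀ a b : ℕ, b < 2 ^ n →
    (a < b ↔ ∃ j < n, lowLab j a = highLab j b) := by
  induction n with
  | zero =>
    intro a b hb
    have : b = 0 := by simpa using hb
    subst this
    simp
  | succ n ih =>
    intro a b hb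
    constructor
    · intro hab
      by_cases he : a / 2 = b / 2
      · refine ⟨0, Nat.succ_pos n, ?_⟩
        rw [lab_eq_iff]
        simp only [pow_zero, Nat.div_one]
        omega
      · have hlt : a / 2 < b / 2 := by omega
        have hb' : b / 2 < 2 ^ n := by
          rw [pow_succ] at hb; omega
        obtain ⟨j, hj, hjl⟩ := (ih (a / 2) (b / 2) hb').mp hlt
        refine ⟨j + 1, by omega, ?_⟩
        rw [lab_eq_iff] at hjl ⊢
        rw [pow_succ', ← Nat.div_div_eq_div_mul, ← Nat.div_div_eq_div_mul]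
        exact hjl
    · rintro ⟨j, -, hj⟩
      rw [lab_eq_iff] at hj
      by_contra hcon
      have : b / 2 ^ j ≤ a / 2 ^ j := Nat.div_le_div_right (not_lt.mp hcon)
      omega

/-- Comparisons in a linear order are comparisons of numbers less than the number of labels. -/
lemma exists_rank {X Y Lin : Type} [Fintype X] [Fintype Y] [LinearOrder Lin] (f : X → Lin)
    (g : Y → Lin) : ∃ (f' : X → ℕ) (g' : Y → ℕ), (∀ y, g' y ≤ Fintype.card X) ∧
      ∀ x y, f x ≤ g y ↔ f' x < g' y := by
  classical
  refine ⟨fun x => (univ.filter fun z => f z < f x).card,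
    fun y => (univ.filter fun z => f z ≤ g y).card, fun y => ?_, fun x y => ?_⟩
  · exact Finset.card_le_univ _
  · constructor
    · intro hxy
      apply Finset.card_lt_card
      rw [Finset.ssubset_iff_of_subset]
      · exact ⟨x, by simp [hxy], by simp⟩
      · intro z hz
        simp only [Finset.mem_filter, mem_univ, true_and] at hz ⊢
        exact hz.le.trans hxy
    · intro hlt
      by_contra hcon
      push Not at hcon
      refine absurd hlt (not_lt.mpr (Finset.card_le_card ?_))
      intro z hz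
      simp only [Finset.mem_filter, mem_univ, true_and] at hz ⊢
      exact lt_of_le_of_lt hz hcon

end Compare

section Union

open Classical in
lemma card_le_of_cover {ι X : Type} [Fintype ι] [Fintype X] (Q : ι → X → Prop) (S : X → Prop)
    (b : ℕ) (hb : ∀ i, (univ.filter fun x => Q i x).card ≤ b) (hS : ∀ x, S x → ∃ i, Q i x) :
    (univ.filter fun x => S x).card ≤ Fintype.card ι * b := by
  have h1 : (univ.filter fun x => S x) ⊆
      (univ : Finset ι).biUnion fun i => univ.filter fun x => Q i x := by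
    intro x hx
    obtain ⟨i, hi⟩ := hS x (Finset.mem_filter.mp hx).2
    exact Finset.mem_biUnion.mpr ⟨i, mem_univ _, Finset.mem_filter.mpr ⟨mem_univ _, hi⟩⟩
  refine (Finset.card_le_card h1).trans ?_
  rw [← Finset.card_univ (α := ι)]
  exact Finset.card_biUnion_le_card_mul _ _ _ fun i _ => hb i

variable {P B : Type} [Fintype P] [Fintype B]
variable {inc : P → B → Prop} {v k lam : ℕ}

open Classical in
/-- The number of pairs of a relation inside the incidence which is a union of `L` relations, each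
the conjunction of an equality of labels, `c` comparisons of labels and a relation of rank at most
`N`. -/
theorem mixed_bound (h : IsSymmetricDesign inc v k lam) (L c N : ℕ) {Lab : Type}
    (al : Fin L → P → Lab) (be : Fin L → B → Lab) (Lin : Fin L → Fin c → Type)
    [∀ l i, LinearOrder (Lin l i)] (ga : ∀ l i, P → Lin l i) (de : ∀ l i, B → Lin l i)
    (O : Fin L → P → B → Prop)
    (hsub : ∀ l x b, al l x = be l b → (∀ i, ga l i x ≤ de l i b) → O l x b → inc x b)
    (rho : Fin L → Finset P → ℕ)
    (hrho : ∀ l (W : Finset P) (x : P) (b : B), x ∈ W → O l x b →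
      rho l (W.filter fun y => ¬ O l y b) + 1 ≤ rho l W) (hN : ∀ l W, rho l W ≤ N) :
    (univ.filter fun p : P × B => ∃ l, al l p.1 = be l p.2 ∧ (∀ i, ga l i p.1 ≤ de l i p.2) ∧
      O l p.1 p.2).card ≤ (lam + 1) * (L * N) * (Nat.log 2 v + 1) ^ c * v := by
  have hcP : Fintype.card P = v := by rw [← Nat.card_eq_fintype_card, h.1]
  have hrank : ∀ l i, ∃ (f' : P → ℕ) (g' : B → ℕ), (∀ y, g' y ≤ Fintype.card P) ∧
      ∀ x y, ga l i x ≤ de l i y ↔ f' x < g' y := fun l i => exists_rank (ga l i) (de l i)
  choose f' g' hg' hfg using hrank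
  set n := Nat.log 2 v + 1 with hn
  have hlt : ∀ l i b, g' l i b < 2 ^ n := fun l i b => by
    refine lt_of_le_of_lt (hg' l i b) ?_
    rw [hcP]
    exact Nat.lt_pow_succ_log_self (by norm_num) v
  have hcmp : ∀ l x b, (∀ i, ga l i x ≤ de l i b) ↔ ∃ J : Fin c → Fin n,
      (fun i => lowLab (J i) (f' l i x)) = fun i => highLab (J i) (g' l i b) := by
    intro l x b
    constructor
    · intro hall
      have : ∀ i, ∃ j : Fin n, lowLab j (f' l i x) = highLab j (g' l i b) := by
        intro i
        obtain ⟨j, hj, hj'⟩ :=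
          (lt_iff_exists_lab n _ _ (hlt l i b)).mp ((hfg l i x b).mp (hall i))
        exact ⟨⟨j, hj⟩, hj'⟩
      choose J hJ using this
      exact ⟨J, funext hJ⟩
    · rintro ⟨J, hJ⟩ i
      rw [hfg l i x b, lt_iff_exists_lab n _ _ (hlt l i b)]
      exact ⟨J i, (J i).2, congrFun hJ i⟩
  have key := card_le_of_cover (ι := Fin L × (Fin c → Fin n))
    (fun q (p : P × B) => (al q.1 p.1, fun i => lowLab (q.2 i) (f' q.1 i p.1)) =
      (be q.1 p.2, fun i => highLab (q.2 i) (g' q.1 i p.2)) ∧ O q.1 p.1 p.2)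
    (fun p : P × B => ∃ l, al l p.1 = be l p.2 ∧ (∀ i, ga l i p.1 ≤ de l i p.2) ∧ O l p.1 p.2)
    ((lam + 1) * N * v)
    (fun q => by
      have := layer_bound h (fun x => (al q.1 x, fun i => lowLab (q.2 i) (f' q.1 i x)))
        (fun b => (be q.1 b, fun i => highLab (q.2 i) (g' q.1 i b))) (O q.1) (by
          intro x b hlab hO
          rw [Prod.mk.injEq] at hlab
          exact hsub q.1 x b hlab.1 ((hcmp q.1 x b).mpr ⟨q.2, hlab.2⟩) hO) (rho q.1)
        (hrho q.1) N (hN q.1)
      convert this)
    (by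
      rintro p ⟨l, hl1, hl2, hl3⟩
      obtain ⟨J, hJ⟩ := (hcmp l p.1 p.2).mp hl2
      exact ⟨(l, J), Prod.ext hl1 hJ, hl3⟩)
  have hcard : Fintype.card (Fin L × (Fin c → Fin n)) * ((lam + 1) * N * v) =
      (lam + 1) * (L * N) * n ^ c * v := by
    rw [Fintype.card_prod, Fintype.card_fin, Fintype.card_fun, Fintype.card_fin, Fintype.card_fin]
    ring
  rw [hcard] at key
  convert key

/-- polynomials in the logarithm are smaller than any root -/
lemma exists_bound_of_log (C c : ℕ) : ∃ V : ℕ, ∀ v k : ℕ, v ≤ 1 + k ^ 2 →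
    k ≤ C * (Nat.log 2 v + 1) ^ c → v ≤ V := by
  have ht : Filter.Tendsto (fun n : ℕ => (n : ℝ) ^ (2 * c) / (2 : ℝ) ^ n) Filter.atTop
      (nhds 0) := tendsto_pow_const_div_const_pow_of_one_lt (2 * c) (by norm_num)
  have hpos : (0 : ℝ) < 1 / (4 * (1 + (C : ℝ) ^ 2)) := by positivity
  obtain ⟨n₀, hn₀⟩ := Filter.eventually_atTop.mp (ht.eventually (gt_mem_nhds hpos))
  refine ⟨2 ^ (n₀ + 1), fun v k hv hk => ?_⟩
  by_contra hcon
  push Not at hcon
  set n := Nat.log 2 v with hn
  have hv0 : v ≠ 0 := by have := Nat.two_pow_pos (n₀ + 1); omega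
  have hn1 : n₀ + 1 ≤ n := by
    have := Nat.log_mono_right (b := 2) hcon.le
    rwa [Nat.log_pow (by norm_num)] at this
  have hvn : 2 ^ n ≤ v := Nat.pow_log_le_self 2 hv0
  have h1 := hn₀ (n + 1) (by omega)
  have hchain : 2 ^ n ≤ (1 + C ^ 2) * (n + 1) ^ (2 * c) := by
    calc 2 ^ n ≤ v := hvn
      _ ≤ 1 + k ^ 2 := hv
      _ ≤ 1 + (C * (n + 1) ^ c) ^ 2 := by gcongr
      _ = 1 + C ^ 2 * (n + 1) ^ (2 * c) := by ring
      _ ≤ (n + 1) ^ (2 * c) + C ^ 2 * (n + 1) ^ (2 * c) := by
          gcongr
          exact Nat.one_le_pow _ _ (Nat.succ_pos n)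
      _ = (1 + C ^ 2) * (n + 1) ^ (2 * c) := by ring
  have hchain' : (2 : ℝ) ^ n ≤ (1 + (C : ℝ) ^ 2) * ((n : ℝ) + 1) ^ (2 * c) := by
    exact_mod_cast hchain
  rw [div_lt_div_iff₀ (by positivity) (by positivity)] at h1
  push_cast at h1
  have h2 : 0 < (2 : ℝ) ^ n := by positivity
  have h3 : (2 : ℝ) ^ (n + 1) = 2 * 2 ^ n := by ring
  have h4 : 4 * ((1 + (C : ℝ) ^ 2) * ((n : ℝ) + 1) ^ (2 * c)) < 2 * 2 ^ n := by
    calc 4 * ((1 + (C : ℝ) ^ 2) * ((n : ℝ) + 1) ^ (2 * c)) =
        ((n : ℝ) + 1) ^ (2 * c) * (4 * (1 + (C : ℝ) ^ 2)) := by ring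
      _ < 1 * 2 ^ (n + 1) := h1
      _ = 2 * 2 ^ n := by rw [one_mul, h3]
  linarith

end Union

end Pool.Agent.H680.HallRank
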