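import Pool.Agent.H680.HallRank

/-!
# Polynomial incidence has small rank over a purely transcendental extension

Helper file for `MP_c38931_co.ZariskiOpenIncidence`.
-/

set_option autoImplicit false
set_option linter.unusedSectionVars false

namespace Pool.Agent.H680.HallRank

open Finset

section Rank

variable {P B : Type} [Fintype P] [Fintype B] {L : ℕ}
variable {E : Fin L → Type} [∀ l, Field (E l)]
variable {S : Fin L → Type} [∀ l, Fintype (S l)]

/-- sum of the dimensions of the spans of the point vectors of `W` -/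
noncomputable def rankSum (G : ∀ l, P → S l → E l) (W : Finset P) : ℕ :=
  ∑ l, Module.finrank (E l) (Submodule.span (E l) (G l '' (W : Set P)))

lemma rankSum_le (G : ∀ l, P → S l → E l) (W : Finset P) :
    rankSum G W ≤ ∑ l, Fintype.card (S l) := by
  refine Finset.sum_le_sum fun l _ => ?_
  calc Module.finrank (E l) (Submodule.span (E l) (G l '' (W : Set P)))
      ≤ Module.finrank (E l) (S l → E l) := Submodule.finrank_le _
    _ = Fintype.card (S l) := Module.finrank_fintype_fun_eq_card _

open Classical in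
lemma rankSum_drop (inc : P → B → Prop) (G : ∀ l, P → S l → E l) (H : ∀ l, B → S l → E l)
    (hinc : ∀ x b, inc x b ↔ ∃ l, ∑ s, G l x s * H l b s ≠ 0)
    (W : Finset P) (x : P) (b : B) (hx : x ∈ W) (hb : inc x b) :
    rankSum G (W.filter fun y => ¬ inc y b) + 1 ≤ rankSum G W := by
  obtain ⟨l₀, hl₀⟩ := (hinc x b).mp hb
  have hmono : ∀ l, Submodule.span (E l) (G l '' ((W.filter fun y => ¬ inc y b : Finset P) : Set P))
      ≤ Submodule.span (E l) (G l '' (W : Set P)) := by
    intro l
    apply Submodule.span_mono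
    apply Set.image_mono
    intro y hy
    exact (Finset.mem_filter.mp (Finset.mem_coe.mp hy)).1
  have hstrict : Submodule.span (E l₀)
      (G l₀ '' ((W.filter fun y => ¬ inc y b : Finset P) : Set P)) <
      Submodule.span (E l₀) (G l₀ '' (W : Set P)) := by
    refine lt_of_le_of_ne (hmono l₀) fun heq => hl₀ ?_
    -- the functional given by `H l₀ b`
    let φ : (S l₀ → E l₀) →ₗ[E l₀] E l₀ := ∑ s, (H l₀ b s) • LinearMap.proj s
    have hφ : ∀ g : S l₀ → E l₀, φ g = ∑ s, g s * H l₀ b s := by
      intro g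
      simp only [φ, LinearMap.sum_apply, LinearMap.smul_apply, LinearMap.proj_apply, smul_eq_mul]
      exact Finset.sum_congr rfl fun s _ => mul_comm _ _
    have hker : Submodule.span (E l₀)
        (G l₀ '' ((W.filter fun y => ¬ inc y b : Finset P) : Set P)) ≤ LinearMap.ker φ := by
      rw [Submodule.span_le]
      rintro _ ⟨y, hy, rfl⟩
      have hy' := (Finset.mem_filter.mp (Finset.mem_coe.mp hy)).2
      rw [SetLike.mem_coe, LinearMap.mem_ker, hφ]
      by_contra hne
      exact hy' ((hinc y b).mpr ⟨l₀, hne⟩)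
    have hxmem : G l₀ x ∈ LinearMap.ker φ := by
      apply hker
      rw [heq]
      exact Submodule.subset_span ⟨x, Finset.mem_coe.mpr hx, rfl⟩
    rw [LinearMap.mem_ker, hφ] at hxmem
    exact hxmem
  have hlt : rankSum G (W.filter fun y => ¬ inc y b) < rankSum G W := by
    refine Finset.sum_lt_sum (fun l _ => Submodule.finrank_mono (hmono l)) ⟨l₀, mem_univ _, ?_⟩
    exact Submodule.finrank_lt_finrank_of_lt hstrict
  exact hlt

end Rank

section Poly

/-- the product of the homogenised coordinates along a multiset of indices -/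
noncomputable def phi {R : Type} [CommRing R] {m : ℕ} (e : ℕ) (z : Fin m → R)
    (s : Sym (Fin (m + 1)) e) : R :=
  ((s : Multiset (Fin (m + 1))).map (Fin.cons 1 z : Fin (m + 1) → R)).prod

lemma exists_sym {m : ℕ} (e : ℕ) (γ : Fin m → ℕ) (h : ∑ i, γ i ≤ e) :
    ∃ s : Sym (Fin (m + 1)) e, ∀ {R : Type} [CommRing R] (z : Fin m → R),
      phi e z s = ∏ i, z i ^ γ i := by
  let δ : Fin (m + 1) → ℕ := Fin.cons (e - ∑ i, γ i) γ
  have hδ : ∑ i, δ i = e := by
    rw [Fin.sum_univ_succ]
    simp only [δ, Fin.cons_zero, Fin.cons_succ]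
    omega
  refine ⟨⟨∑ i, Multiset.replicate (δ i) i, ?_⟩, ?_⟩
  · simpa using hδ
  · intro R _ z
    unfold phi
    have h1 : (Multiset.map (Fin.cons 1 z : Fin (m + 1) → R)
        (∑ i, Multiset.replicate (δ i) i)).prod =
        ∏ i, ((Fin.cons 1 z : Fin (m + 1) → R) i) ^ δ i := by
      have := map_sum (Multiset.mapAddMonoidHom (Fin.cons 1 z : Fin (m + 1) → R))
        (fun i => Multiset.replicate (δ i) i) univ
      simp only [Multiset.coe_mapAddMonoidHom] at this
      rw [this, Multiset.prod_sum]
      refine Finset.prod_congr rfl fun i _ => ?_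
      rw [Multiset.map_replicate, Multiset.prod_replicate]
    change (Multiset.map (Fin.cons 1 z : Fin (m + 1) → R)
        (∑ i, Multiset.replicate (δ i) i)).prod = _
    rw [h1, Fin.prod_univ_succ]
    simp [δ]

/-- `M` is a bilinear expression whose left factors on the first half and whose right factors on
the second half are fixed monomials. -/
def Rep {P B R : Type} [CommRing R] {m m' : ℕ} (e e' : ℕ) (u : P → Fin m → R)
    (w : B → Fin m' → R) (M : P → B → R) : Prop :=
  ∃ (A : Sym (Fin (m + 1)) e → B → R) (C : Sym (Fin (m' + 1)) e' → P → R),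
    ∀ x b, M x b = ∑ s, phi e (u x) s * A s b + ∑ s, C s x * phi e' (w b) s

variable {P B R : Type} [CommRing R] {m m' e e' : ℕ} {u : P → Fin m → R} {w : B → Fin m' → R}

lemma Rep.zero : Rep e e' u w fun _ _ => 0 := ⟨fun _ _ => 0, fun _ _ => 0, by simp⟩

lemma Rep.add {M M' : P → B → R} (h : Rep e e' u w M) (h' : Rep e e' u w M') :
    Rep e e' u w fun x b => M x b + M' x b := by
  obtain ⟨A, C, hM⟩ := h
  obtain ⟨A', C', hM'⟩ := h'
  refine ⟨fun s b => A s b + A' s b, fun s x => C s x + C' s x, fun x b => ?_⟩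
  simp only [hM, hM', mul_add, add_mul, Finset.sum_add_distrib]
  ring

lemma Rep.sum {ι : Type} (t : Finset ι) (M : ι → P → B → R)
    (h : ∀ i ∈ t, Rep e e' u w (M i)) : Rep e e' u w fun x b => ∑ i ∈ t, M i x b := by
  classical
  induction t using Finset.induction_on with
  | empty => simpa using Rep.zero
  | insert a t ha ih =>
    simp only [Finset.sum_insert ha]
    exact (h a (Finset.mem_insert_self a t)).add
      (ih fun i hi => h i (Finset.mem_insert_of_mem hi))

lemma Rep.left (γ : Fin m → ℕ) (hγ : ∑ i, γ i ≤ e) (a : B → R) :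
    Rep e e' u w fun x b => (∏ i, u x i ^ γ i) * a b := by
  classical
  obtain ⟨s, hs⟩ := exists_sym e γ hγ
  refine ⟨fun t b => if t = s then a b else 0, fun _ _ => 0, fun x b => ?_⟩
  simp [hs]

lemma Rep.right (γ : Fin m' → ℕ) (hγ : ∑ i, γ i ≤ e') (a : P → R) :
    Rep e e' u w fun x b => a x * ∏ i, w b i ^ γ i := by
  classical
  obtain ⟨s, hs⟩ := exists_sym e' γ hγ
  refine ⟨fun _ _ => 0, fun t b => if t = s then a b else 0, fun x b => ?_⟩
  simp [hs]

lemma Rep.monomial (γ : Fin m ⊕ Fin m' → ℕ) (hγ : ∑ i, γ i ≤ e + e' + 1) (c : R) :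
    Rep e e' u w fun x b => c * ∏ i, (Sum.elim (u x) (w b) i) ^ γ i := by
  rw [Fintype.sum_sum_type] at hγ
  simp only [Fintype.prod_sum_type, Sum.elim_inl, Sum.elim_inr]
  by_cases h : ∑ i, γ (Sum.inl i) ≤ e
  · have := Rep.left (e' := e') (u := u) (w := w) (fun i => γ (Sum.inl i)) h
      (fun b => c * ∏ i, w b i ^ γ (Sum.inr i))
    convert this using 3
    ring
  · have h' : ∑ i, γ (Sum.inr i) ≤ e' := by omega
    have := Rep.right (e := e) (u := u) (w := w) (fun i => γ (Sum.inr i)) h'
      (fun x => c * ∏ i, u x i ^ γ (Sum.inl i))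
    convert this using 3
    ring

lemma Rep.poly (f : MvPolynomial (Fin m ⊕ Fin m') R) (hf : f.totalDegree ≤ e + e' + 1) :
    Rep e e' u w fun x b => MvPolynomial.eval (Sum.elim (u x) (w b)) f := by
  simp only [MvPolynomial.eval_eq']
  refine Rep.sum _ _ fun γ hγ => ?_
  refine Rep.monomial (fun i => γ i) ?_ _
  have := MvPolynomial.le_totalDegree hγ
  rw [Finsupp.sum_fintype _ _ (fun _ => rfl)] at this
  exact this.trans hf

lemma Rep.polyLeft [Fintype B] (f : B → MvPolynomial (Fin m) R)
    (hf : ∀ b, (f b).totalDegree ≤ e) :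
    Rep e e' u w fun x b => MvPolynomial.eval (u x) (f b) := by
  classical
  have key : ∀ x b, MvPolynomial.eval (u x) (f b) =
      ∑ γ ∈ univ.biUnion (fun b => (f b).support),
        (∏ i, u x i ^ γ i) * MvPolynomial.coeff γ (f b) := by
    intro x b
    rw [MvPolynomial.eval_eq']
    rw [Finset.sum_subset (Finset.subset_biUnion_of_mem (fun b => (f b).support) (mem_univ b))]
    · exact Finset.sum_congr rfl fun γ _ => mul_comm _ _
    · intro γ _ hγ
      rw [MvPolynomial.notMem_support_iff.mp hγ, zero_mul]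
  simp only [key]
  refine Rep.sum _ _ fun γ hγ => ?_
  obtain ⟨b, -, hb⟩ := Finset.mem_biUnion.mp hγ
  refine Rep.left (fun i => γ i) ?_ _
  have := MvPolynomial.le_totalDegree hb
  rw [Finsupp.sum_fintype _ _ (fun _ => rfl)] at this
  exact this.trans (hf b)

lemma Rep.polyRight [Fintype P] (g : P → MvPolynomial (Fin m') R)
    (hg : ∀ x, (g x).totalDegree ≤ e') :
    Rep e e' u w fun x b => MvPolynomial.eval (w b) (g x) := by
  classical
  have key : ∀ x b, MvPolynomial.eval (w b) (g x) =
      ∑ γ ∈ univ.biUnion (fun x => (g x).support),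
        MvPolynomial.coeff γ (g x) * (∏ i, w b i ^ γ i) := by
    intro x b
    rw [MvPolynomial.eval_eq']
    rw [Finset.sum_subset (Finset.subset_biUnion_of_mem (fun x => (g x).support) (mem_univ x))]
    intro γ _ hγ
    rw [MvPolynomial.notMem_support_iff.mp hγ, zero_mul]
  simp only [key]
  refine Rep.sum _ _ fun γ hγ => ?_
  obtain ⟨x, -, hx⟩ := Finset.mem_biUnion.mp hγ
  refine Rep.right (fun i => γ i) ?_ _
  have := MvPolynomial.le_totalDegree hx
  rw [Finsupp.sum_fintype _ _ (fun _ => rfl)] at this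
  exact this.trans (hg x)

end Poly

section Field

variable {P B K : Type} [Fintype P] [Fintype B] [Field K] {m m' e e' : ℕ}

/-- **Families of polynomial relations have small rank.** If every `M j` is a bilinear expression
as in `Rep`, then the relation that some `M j x b` is not zero is the non-zero pattern of a matrix of
rank at most `C(m+e, e) + C(m'+e', e')` over the field `K(T)`. -/
theorem exists_factor (u : P → Fin m → K) (w : B → Fin m' → K) {J : Type}
    (M : J → P → B → K) (hM : ∀ j, Rep e e' u w (M j)) :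
    ∃ (G : P → (Sym (Fin (m + 1)) e ⊕ Sym (Fin (m' + 1)) e') → RatFunc K)
      (H : B → (Sym (Fin (m + 1)) e ⊕ Sym (Fin (m' + 1)) e') → RatFunc K),
      ∀ x b, (∃ j, M j x b ≠ 0) ↔ ∑ s, G x s * H b s ≠ 0 := by
  classical
  rcases isEmpty_or_nonempty J with hJ | hJ
  · refine ⟨fun _ _ => 0, fun _ _ => 0, fun x b => ?_⟩
    simp
  choose A C hAC using hM
  -- choose a witness for every pair
  have hch : ∀ p : P × B, ∃ j : J, (∃ j, M j p.1 p.2 ≠ 0) → M j p.1 p.2 ≠ 0 := by
    intro p
    by_cases hp : ∃ j, M j p.1 p.2 ≠ 0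
    · obtain ⟨j, hj⟩ := hp
      exact ⟨j, fun _ => hj⟩
    · exact ⟨Classical.arbitrary J, fun h => absurd h hp⟩
  choose c hc using hch
  let idx : P × B ≃ Fin (Fintype.card (P × B)) := Fintype.equivFin _
  let a := algebraMap (Polynomial K) (RatFunc K)
  let t : P × B → Polynomial K := fun p => Polynomial.X ^ (idx p : ℕ)
  refine ⟨fun x => Sum.elim (fun s => a (Polynomial.C (phi e (u x) s)))
      (fun s => a (∑ p, t p * Polynomial.C (C (c p) s x))),
    fun b => Sum.elim (fun s => a (∑ p, t p * Polynomial.C (A (c p) s b)))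
      (fun s => a (Polynomial.C (phi e' (w b) s))), fun x b => ?_⟩
  have hsum : ∑ s, (Sum.elim (fun s => a (Polynomial.C (phi e (u x) s)))
      (fun s => a (∑ p, t p * Polynomial.C (C (c p) s x))) :
      (Sym (Fin (m + 1)) e ⊕ Sym (Fin (m' + 1)) e') → RatFunc K) s *
      (Sum.elim (fun s => a (∑ p, t p * Polynomial.C (A (c p) s b)))
      (fun s => a (Polynomial.C (phi e' (w b) s))) :
      (Sym (Fin (m + 1)) e ⊕ Sym (Fin (m' + 1)) e') → RatFunc K) s =
      a (∑ p, t p * Polynomial.C (M (c p) x b)) := by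
    rw [Fintype.sum_sum_type]
    simp only [Sum.elim_inl, Sum.elim_inr, ← map_mul, ← map_sum, ← map_add]
    congr 1
    simp only [hAC, map_add, map_sum, map_mul, mul_add, Finset.mul_sum, Finset.sum_mul,
      Finset.sum_add_distrib]
    congr 1
    · rw [Finset.sum_comm]
      refine Finset.sum_congr rfl fun p _ => Finset.sum_congr rfl fun s _ => ?_
      ring
    · rw [Finset.sum_comm]
      refine Finset.sum_congr rfl fun p _ => Finset.sum_congr rfl fun s _ => ?_
      ring
  rw [hsum]
  have hinj : Function.Injective a := RatFunc.algebraMap_injective K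
  rw [Ne, map_eq_zero_iff a hinj]
  have hcoeff : ∀ q : P × B, (∑ p : P × B, t p * Polynomial.C (M (c p) x b)).coeff (idx q : ℕ) =
      M (c q) x b := by
    intro q
    rw [Polynomial.finsetSum_coeff]
    rw [Finset.sum_eq_single q]
    · rw [mul_comm, Polynomial.coeff_C_mul_X_pow]; simp
    · intro p _ hpq
      rw [mul_comm, Polynomial.coeff_C_mul_X_pow]
      have : (idx q : ℕ) ≠ (idx p : ℕ) := fun h => hpq (idx.injective (Fin.ext h)).symm
      simp [this]
    · intro h; exact absurd (mem_univ q) h
  constructor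
  · intro h hzero
    have h1 := hc (x, b) h
    have h2 := hcoeff (x, b)
    rw [hzero, Polynomial.coeff_zero] at h2
    exact h1 h2.symm
  · intro hne
    by_contra hno
    apply hne
    refine Finset.sum_eq_zero fun p _ => ?_
    have : M (c p) x b = 0 := by
      by_contra hcon
      exact hno ⟨c p, hcon⟩
    rw [this]; simp

lemma card_index (m m' e e' : ℕ) :
    Fintype.card (Sym (Fin (m + 1)) e ⊕ Sym (Fin (m' + 1)) e') =
      (m + e).choose m + (m' + e').choose m' := by
  rw [Fintype.card_sum, Sym.card_sym_fin_eq_multichoose, Sym.card_sym_fin_eq_multichoose,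
    Nat.multichoose_eq, Nat.multichoose_eq]
  congr 1
  · rw [show m + 1 + e - 1 = m + e by omega, ← Nat.choose_symm_add]
  · rw [show m' + 1 + e' - 1 = m' + e' by omega, ← Nat.choose_symm_add]

end Field

end Pool.Agent.H680.HallRank
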