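import Mathlib

/-!
# Symmetric designs: a greedy lower bound for ranks

Helper file for `MP_c38931_co.ZariskiOpenIncidence`.
-/

set_option autoImplicit false
set_option linter.unusedSectionVars false

namespace Pool.Agent.H680.HallRank

open Finset

/-- A symmetric `2`-`(v, k, lam)` design with points `P`, blocks `B` and incidence `inc`: there are
`v` points and `v` blocks, every block has `k` points, and two different points are on exactly
`lam` common blocks. -/
def IsSymmetricDesign {P B : Type} (inc : P → B → Prop) (v k lam : ℕ) : Prop :=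
  Nat.card P = v ∧ Nat.card B = v ∧ (∀ b, Nat.card {x // inc x b} = k) ∧
    ∀ x y, x ≠ y → Nat.card {b // inc x b ∧ inc y b} = lam

section Design

variable {P B : Type} [Fintype P] [Fintype B]
variable {inc : P → B → Prop} {v k lam : ℕ}

open Classical in
lemma card_block (h : IsSymmetricDesign inc v k lam) (b : B) :
    (univ.filter fun x => inc x b).card = k := by
  rw [← h.2.2.1 b, Nat.card_eq_fintype_card, Fintype.card_subtype]

open Classical in
lemma card_pair (h : IsSymmetricDesign inc v k lam) {x y : P} (hxy : x ≠ y) :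
    (univ.filter fun b => inc x b ∧ inc y b).card = lam := by
  rw [← h.2.2.2 x y hxy, Nat.card_eq_fintype_card, Fintype.card_subtype]

open Classical in
/-- the number of blocks through a point -/
noncomputable def deg (inc : P → B → Prop) (x : P) : ℕ := (univ.filter fun b => inc x b).card

open Classical in
lemma sum_through (h : IsSymmetricDesign inc v k lam) (W : Finset P) {x : P} (hx : x ∈ W) :
    ∑ b ∈ univ.filter (fun b => inc x b), (W.filter fun y => inc y b).card =
      deg inc x + lam * (W.card - 1) := by
  have h1 : ∑ b ∈ univ.filter (fun b => inc x b), (W.filter fun y => inc y b).card =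
      ∑ y ∈ W, (univ.filter fun b => inc x b ∧ inc y b).card := by
    simp only [card_filter, Finset.sum_filter]
    rw [Finset.sum_comm (s := W)]
    refine Finset.sum_congr rfl fun b _ => ?_
    by_cases hb : inc x b <;> simp [hb]
  rw [h1, ← Finset.add_sum_erase W _ hx]
  congr 1
  · simp [deg]
  · rw [Finset.sum_congr rfl (g := fun _ => lam), sum_const, card_erase_of_mem hx, smul_eq_mul,
      mul_comm]
    intro y hy
    exact card_pair h (Ne.symm (Finset.ne_of_mem_erase hy))

open Classical in
lemma sum_deg (h : IsSymmetricDesign inc v k lam) : ∑ x : P, deg inc x = v * k := by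
  have h1 : ∑ x : P, deg inc x = ∑ b : B, (univ.filter fun x => inc x b).card := by
    simp only [deg, card_filter]
    exact Finset.sum_comm
  rw [h1, Finset.sum_congr rfl (fun b _ => card_block h b), sum_const, smul_eq_mul, card_univ,
    ← Nat.card_eq_fintype_card, h.2.1]

open Classical in
lemma deg_mul (h : IsSymmetricDesign inc v k lam) (x : P) :
    deg inc x * k = deg inc x + lam * (v - 1) := by
  have := sum_through h univ (mem_univ x)
  rw [Finset.sum_congr rfl (fun b _ => card_block h b), sum_const, smul_eq_mul, card_univ,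
    ← Nat.card_eq_fintype_card, h.1] at this
  exact this

/-- every point is on `k` blocks -/
lemma deg_eq (h : IsSymmetricDesign inc v k lam) (hk : 2 ≤ k) (x : P) : deg inc x = k := by
  have hv : 0 < v := by
    rw [← h.1, Nat.card_eq_fintype_card]; exact Fintype.card_pos_iff.mpr ⟨x⟩
  have hall : ∀ y : P, deg inc y = deg inc x := by
    intro y
    have h1 := deg_mul h x
    have h2 := deg_mul h y
    obtain ⟨j, rfl⟩ : ∃ j, k = j + 2 := ⟨k - 2, by omega⟩
    have h3 : deg inc y * (j + 1) = deg inc x * (j + 1) := by
      have e1 : deg inc y * (j + 2) = deg inc y * (j + 1) + deg inc y := by ring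
      have e2 : deg inc x * (j + 2) = deg inc x * (j + 1) + deg inc x := by ring
      omega
    exact Nat.eq_of_mul_eq_mul_right (by omega) h3
  have h4 := sum_deg h
  rw [Finset.sum_congr rfl (fun y _ => hall y), sum_const, smul_eq_mul, card_univ,
    ← Nat.card_eq_fintype_card, h.1] at h4
  exact Nat.eq_of_mul_eq_mul_left hv h4

/-- the basic equation `k (k - 1) = lam (v - 1)`, in the form `k * k = k + lam * (v - 1)` -/
lemma basic_eq (h : IsSymmetricDesign inc v k lam) (hk : 2 ≤ k) (hv : 0 < v) :
    k * k = k + lam * (v - 1) := by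
  have : 0 < Fintype.card P := by rw [← Nat.card_eq_fintype_card, h.1]; exact hv
  obtain ⟨x⟩ := Fintype.card_pos_iff.mp this
  have := deg_mul h x
  rwa [deg_eq h hk x] at this

lemma lam_lt (h : IsSymmetricDesign inc v k lam) (hk : 2 ≤ k) (hkv : k < v) : lam < k := by
  have h1 := basic_eq h hk (by omega)
  by_contra hc
  push Not at hc
  have h2 : k * k ≤ lam * (v - 1) := Nat.mul_le_mul hc (by omega)
  omega

open Classical in
/-- Averaging: some block through `x` has few points of `W`. -/
lemma exists_light (h : IsSymmetricDesign inc v k lam) (hk : 2 ≤ k) (W : Finset P) {x : P}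
    (hx : x ∈ W) :
    ∃ b, inc x b ∧ k * (W.filter fun y => inc y b).card ≤ k + lam * (W.card - 1) := by
  have hs := sum_through h W hx
  have hd := deg_eq h hk x
  by_contra hc
  push Not at hc
  have hne : (univ.filter fun b => inc x b).Nonempty := by
    rw [← Finset.card_pos]
    have : (univ.filter fun b => inc x b).card = k := hd
    omega
  have h1 : ∑ b ∈ univ.filter (fun b => inc x b), (k + lam * (W.card - 1)) <
      ∑ b ∈ univ.filter (fun b => inc x b), k * (W.filter fun y => inc y b).card :=
    Finset.sum_lt_sum_of_nonempty hne fun b hb => hc b (Finset.mem_filter.mp hb).2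
  rw [← Finset.mul_sum, hs, hd, sum_const, smul_eq_mul] at h1
  have : (univ.filter fun b => inc x b).card = k := hd
  rw [this] at h1
  exact lt_irrefl _ h1

open Classical in
/-- **The greedy bound.** If `rho` drops by at least one each time we pass from `W` to the part of
`W` off a block that meets `W`, then `rho` is large. -/
theorem greedy (h : IsSymmetricDesign inc v k lam) (hk : 2 ≤ k) (hlam : 1 ≤ lam) (hlk : lam < k)
    (rho : Finset P → ℕ)
    (hrho : ∀ (W : Finset P) (x : P) (b : B), x ∈ W → inc x b →
      rho (W.filter fun y => ¬ inc y b) + 1 ≤ rho W) :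
    ∀ (n : ℕ) (W : Finset P), W.card = n →
      (1 - (lam : ℝ) / k) ^ rho W * ((W.card : ℝ) - 1 + k / lam) < k / lam := by
  have hk0 : (0 : ℝ) < k := by exact_mod_cast (by omega : 0 < k)
  have hl0 : (0 : ℝ) < lam := by exact_mod_cast (by omega : 0 < lam)
  have hlk' : (lam : ℝ) < k := by exact_mod_cast hlk
  have hq0 : 0 < 1 - (lam : ℝ) / k := by
    have : (lam : ℝ) / k < 1 := (div_lt_one hk0).mpr hlk'
    linarith
  have hq1 : 1 - (lam : ℝ) / k < 1 := by
    have : 0 < (lam : ℝ) / k := by positivity
    linarith
  intro n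
  induction n using Nat.strong_induction_on with
  | _ n ih =>
    intro W hW
    rcases W.eq_empty_or_nonempty with rfl | ⟨x, hx⟩
    · simp only [card_empty, Nat.cast_zero, zero_sub]
      have hkl : 1 < (k : ℝ) / lam := (one_lt_div hl0).mpr hlk'
      have hp : (1 - (lam : ℝ) / k) ^ rho ∅ ≤ 1 := pow_le_one₀ hq0.le hq1.le
      have : (1 - (lam : ℝ) / k) ^ rho ∅ * (-1 + k / lam) ≤ 1 * (-1 + k / lam) :=
        mul_le_mul_of_nonneg_right hp (by linarith)
      linarith
    · obtain ⟨b, hb, hlight⟩ := exists_light h hk W hx
      set W' := W.filter fun y => ¬ inc y b with hW'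
      have hsplit : (W.filter fun y => inc y b).card + W'.card = W.card := by
        rw [hW']; exact Finset.card_filter_add_card_filter_not _
      have hpos : 0 < (W.filter fun y => inc y b).card :=
        Finset.card_pos.mpr ⟨x, Finset.mem_filter.mpr ⟨hx, hb⟩⟩
      have hlt : W'.card < n := by omega
      have hI := ih W'.card hlt W' rfl
      have hr := hrho W x b hx hb
      have hWpos : 0 < W.card := Finset.card_pos.mpr ⟨x, hx⟩
      -- the light block inequality in the reals
      have hlight' : (k : ℝ) * ((W.filter fun y => inc y b).card : ℝ) ≤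
          k + lam * ((W.card : ℝ) - 1) := by
        have : ((k * (W.filter fun y => inc y b).card : ℕ) : ℝ) ≤
            ((k + lam * (W.card - 1) : ℕ) : ℝ) := by exact_mod_cast hlight
        push_cast [Nat.cast_sub (show 1 ≤ W.card from hWpos)] at this
        exact this
      have hsplit' : ((W.filter fun y => inc y b).card : ℝ) = W.card - W'.card := by
        have : (((W.filter fun y => inc y b).card + W'.card : ℕ) : ℝ) = (W.card : ℝ) := by
          exact_mod_cast hsplit
        push_cast at this
        linarith
      rw [hsplit'] at hlight'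
      -- W' - 1 + k/lam ≥ (1 - lam/k) (W - 1 + k/lam)
      have hkey : (1 - (lam : ℝ) / k) * ((W.card : ℝ) - 1 + k / lam) ≤
          (W'.card : ℝ) - 1 + k / lam := by
        have e1 : (1 - (lam : ℝ) / k) * ((W.card : ℝ) - 1 + k / lam) =
            ((W.card : ℝ) - 1 + k / lam) - (lam / k * ((W.card : ℝ) - 1) + 1) := by
          field_simp
        have e2 : (W.card : ℝ) - W'.card ≤ 1 + lam / k * ((W.card : ℝ) - 1) := by
          have : (k : ℝ) * ((W.card : ℝ) - W'.card) / k ≤
              (k + lam * ((W.card : ℝ) - 1)) / k := div_le_div_of_nonneg_right hlight' hk0.le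
          have e3 : (k : ℝ) * ((W.card : ℝ) - W'.card) / k = (W.card : ℝ) - W'.card := by
            field_simp
          have e4 : (k + lam * ((W.card : ℝ) - 1)) / k = 1 + lam / k * ((W.card : ℝ) - 1) := by
            field_simp
          rw [e3, e4] at this
          exact this
        rw [e1]; linarith
      have hcard0 : 0 ≤ (W.card : ℝ) - 1 + k / lam := by
        have : (1 : ℝ) ≤ W.card := by exact_mod_cast hWpos
        have : 0 < (k : ℝ) / lam := by positivity
        linarith
      calc (1 - (lam : ℝ) / k) ^ rho W * ((W.card : ℝ) - 1 + k / lam)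
          ≤ (1 - (lam : ℝ) / k) ^ (rho W' + 1) * ((W.card : ℝ) - 1 + k / lam) := by
            apply mul_le_mul_of_nonneg_right _ hcard0
            exact pow_le_pow_of_le_one hq0.le hq1.le hr
        _ = (1 - (lam : ℝ) / k) ^ rho W' * ((1 - (lam : ℝ) / k) * ((W.card : ℝ) - 1 + k / lam)) := by
            ring
        _ ≤ (1 - (lam : ℝ) / k) ^ rho W' * ((W'.card : ℝ) - 1 + k / lam) :=
            mul_le_mul_of_nonneg_left hkey (by positivity)
        _ < k / lam := hI

open Classical in
/-- The greedy bound for the whole point set. -/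
theorem greedy_univ (h : IsSymmetricDesign inc v k lam) (hk : 2 ≤ k) (hkv : k < v)
    (hlam : 1 ≤ lam) (rho : Finset P → ℕ)
    (hrho : ∀ (W : Finset P) (x : P) (b : B), x ∈ W → inc x b →
      rho (W.filter fun y => ¬ inc y b) + 1 ≤ rho W) (N : ℕ) (hN : rho univ ≤ N) :
    (k : ℝ) * (1 - (lam : ℝ) / k) ^ N < 1 := by
  have hlk := lam_lt h hk hkv
  have hg := greedy h hk hlam hlk rho hrho _ univ rfl
  have hk0 : (0 : ℝ) < k := by exact_mod_cast (by omega : 0 < k)
  have hl0 : (0 : ℝ) < lam := by exact_mod_cast (by omega : 0 < lam)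
  have hlk' : (lam : ℝ) < k := by exact_mod_cast hlk
  have hq0 : 0 < 1 - (lam : ℝ) / k := by
    have : (lam : ℝ) / k < 1 := (div_lt_one hk0).mpr hlk'
    linarith
  have hq1 : 1 - (lam : ℝ) / k < 1 := by
    have : 0 < (lam : ℝ) / k := by positivity
    linarith
  have hb := basic_eq h hk (by omega)
  have hb' : (k : ℝ) * k = k + lam * ((v : ℝ) - 1) := by
    have : ((k * k : ℕ) : ℝ) = ((k + lam * (v - 1) : ℕ) : ℝ) := by exact_mod_cast hb
    push_cast [Nat.cast_sub (show 1 ≤ v by omega)] at this
    exact this
  have hcard : ((univ : Finset P).card : ℝ) = v := by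
    rw [card_univ, ← Nat.card_eq_fintype_card, h.1]
  rw [hcard] at hg
  have hv : (v : ℝ) - 1 + k / lam = k * (k / lam) := by
    have : (v : ℝ) - 1 = (k * k - k) / lam := by
      field_simp
      linarith
    rw [this]
    field_simp
    ring
  rw [hv] at hg
  have hkl : 0 < (k : ℝ) / lam := by positivity
  have h1 : (1 - (lam : ℝ) / k) ^ rho univ * k < 1 := by
    have : (1 - (lam : ℝ) / k) ^ rho univ * k * (k / lam) < 1 * (k / lam) := by
      rw [one_mul, mul_assoc]; exact hg
    exact lt_of_mul_lt_mul_right this hkl.le
  have h2 : (1 - (lam : ℝ) / k) ^ N ≤ (1 - (lam : ℝ) / k) ^ rho univ :=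
    pow_le_pow_of_le_one hq0.le hq1.le hN
  calc (k : ℝ) * (1 - (lam : ℝ) / k) ^ N ≤ k * (1 - (lam : ℝ) / k) ^ rho univ :=
        mul_le_mul_of_nonneg_left h2 hk0.le
    _ = (1 - (lam : ℝ) / k) ^ rho univ * k := by ring
    _ < 1 := h1

end Design

end Pool.Agent.H680.HallRank
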