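import Pool.Agent.H680.HallRank

/-!
# Relations of small rank do not correlate with the incidence of a symmetric design

Helper file for `MP_c38931_co.ZariskiOpenIncidence`.
-/

set_option autoImplicit false
set_option linter.unusedSectionVars false

namespace Pool.Agent.H680.HallRank

open Finset

section Robust

variable {P B : Type} [Fintype P] [Fintype B]
variable {inc : P → B → Prop} {v k lam : ℕ}

open Classical in
lemma card_flags_blocks (h : IsSymmetricDesign inc v k lam) (S : Finset B) :
    (univ.filter fun p : P × B => inc p.1 p.2 ∧ p.2 ∈ S).card = k * S.card := by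
  rw [card_filter, Fintype.sum_prod_type_right]
  have : ∀ b : B, (∑ x : P, if inc x b ∧ b ∈ S then 1 else 0) = if b ∈ S then k else 0 := by
    intro b
    by_cases hb : b ∈ S
    · simp only [hb, and_true, if_true]
      rw [← card_filter, card_block h b]
    · simp [hb]
  rw [Finset.sum_congr rfl fun b _ => this b]
  rw [← Finset.sum_filter]
  simp [mul_comm]

open Classical in
lemma card_flags_points (h : IsSymmetricDesign inc v k lam) (hk : 2 ≤ k) (T : Finset P) :
    (univ.filter fun p : P × B => inc p.1 p.2 ∧ p.1 ∈ T).card = k * T.card := by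
  rw [card_filter, Fintype.sum_prod_type]
  have : ∀ x : P, (∑ b : B, if inc x b ∧ x ∈ T then 1 else 0) = if x ∈ T then k else 0 := by
    intro x
    by_cases hx : x ∈ T
    · simp only [hx, and_true, if_true]
      rw [← card_filter]
      exact deg_eq h hk x
    · simp [hx]
  rw [Finset.sum_congr rfl fun x _ => this x]
  rw [← Finset.sum_filter]
  simp [mul_comm]

open Classical in
/-- **Relations of small rank do not correlate with the incidence**, unless they are dense. -/
theorem robust (h : IsSymmetricDesign inc v k lam) (hk : 2 ≤ k) (R : P → B → Prop)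
    (rho : Finset P → ℕ)
    (hrho : ∀ (W : Finset P) (x : P) (b : B), x ∈ W → R x b →
      rho (W.filter fun y => ¬ R y b) + 1 ≤ rho W) (N : ℕ) (hN : rho univ ≤ N) :
    (univ.filter fun p : P × B => inc p.1 p.2 ∧ R p.1 p.2).card ^ 2 ≤
      4 * N * k ^ 2 * (univ.filter fun p : P × B => R p.1 p.2).card := by
  set f := (univ.filter fun p : P × B => inc p.1 p.2 ∧ R p.1 p.2).card with hf
  set r := (univ.filter fun p : P × B => R p.1 p.2).card with hr
  by_contra hcon
  push Not at hcon
  have hcon' : (4 : ℝ) * N * k ^ 2 * r < (f : ℝ) ^ 2 := by exact_mod_cast hcon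
  have hfpos : 0 < f := by
    rcases Nat.eq_zero_or_pos f with h0 | h0
    · rw [h0] at hcon; simp at hcon
    · exact h0
  obtain ⟨p, hp⟩ := Finset.card_pos.mp hfpos
  have hNpos : 1 ≤ N := by
    have := hrho univ p.1 p.2 (mem_univ _) (Finset.mem_filter.mp hp).2.2
    omega
  have hf0 : (0 : ℝ) < f := by exact_mod_cast hfpos
  have hN0 : (0 : ℝ) < N := by exact_mod_cast hNpos
  have hk0 : (0 : ℝ) < k := by exact_mod_cast (by omega : 0 < k)
  set t : ℝ := f / (2 * k * N) with ht
  have ht0 : 0 < t := by positivity
  have hcardP : (univ : Finset P).card = v := by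
    rw [card_univ, ← Nat.card_eq_fintype_card, h.1]
  -- the basic step
  have step : ∀ W : Finset P, (v : ℝ) - N * t ≤ W.card →
      ∃ x ∈ W, ∃ b, R x b ∧ ((univ.filter fun y => R y b).card : ℝ) ≤ t := by
    intro W hW
    by_contra hno
    push Not at hno
    set S : Finset B := univ.filter fun b => t < ((univ.filter fun y => R y b).card : ℝ) with hS
    have hS1 : (S.card : ℝ) * t ≤ r := by
      have h1 : (∑ b ∈ S, (univ.filter fun y => R y b).card) ≤ r := by
        rw [hr, card_filter, Fintype.sum_prod_type_right]
        calc (∑ b ∈ S, (univ.filter fun y => R y b).card)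
            ≤ ∑ b, (univ.filter fun y => R y b).card :=
              Finset.sum_le_sum_of_subset (Finset.subset_univ _)
          _ = ∑ b, ∑ y, if R y b then 1 else 0 := by simp only [card_filter]
      calc (S.card : ℝ) * t = ∑ b ∈ S, t := by rw [sum_const, nsmul_eq_mul]
        _ ≤ ∑ b ∈ S, ((univ.filter fun y => R y b).card : ℝ) :=
            Finset.sum_le_sum fun b hb => (Finset.mem_filter.mp hb).2.le
        _ = ((∑ b ∈ S, (univ.filter fun y => R y b).card : ℕ) : ℝ) := by push_cast; rfl
        _ ≤ r := by exact_mod_cast h1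
    have hsub : (univ.filter fun p : P × B => inc p.1 p.2 ∧ R p.1 p.2) ⊆
        (univ.filter fun p : P × B => inc p.1 p.2 ∧ p.2 ∈ S) ∪
        (univ.filter fun p : P × B => inc p.1 p.2 ∧ p.1 ∈ univ \ W) := by
      intro q hq
      obtain ⟨-, hq1, hq2⟩ := Finset.mem_filter.mp hq
      by_cases hW' : q.1 ∈ W
      · refine Finset.mem_union_left _ (Finset.mem_filter.mpr ⟨mem_univ _, hq1, ?_⟩)
        exact Finset.mem_filter.mpr ⟨mem_univ _, hno q.1 hW' q.2 hq2⟩
      · refine Finset.mem_union_right _ (Finset.mem_filter.mpr ⟨mem_univ _, hq1, ?_⟩)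
        exact Finset.mem_sdiff.mpr ⟨mem_univ _, hW'⟩
    have hle := (Finset.card_le_card hsub).trans (Finset.card_union_le _ _)
    rw [card_flags_blocks h, card_flags_points h hk, ← hf] at hle
    have hsd : (univ \ W).card + W.card = v := by
      rw [Finset.card_sdiff_add_card_eq_card (Finset.subset_univ W), hcardP]
    have hsd' : ((univ \ W).card : ℝ) = v - W.card := by
      have : (((univ \ W).card + W.card : ℕ) : ℝ) = v := by exact_mod_cast hsd
      push_cast at this
      linarith
    have hle' : (f : ℝ) ≤ k * S.card + k * ((v : ℝ) - W.card) := by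
      have : (f : ℝ) ≤ ((k * S.card + k * (univ \ W).card : ℕ) : ℝ) := by exact_mod_cast hle
      push_cast at this
      rwa [hsd'] at this
    have h2 : (f : ℝ) ≤ k * S.card + k * (N * t) := by
      refine hle'.trans ?_
      have : (k : ℝ) * ((v : ℝ) - W.card) ≤ k * (N * t) :=
        mul_le_mul_of_nonneg_left (by linarith) hk0.le
      linarith
    have h3 : (k : ℝ) * (N * t) = f / 2 := by
      rw [ht]; field_simp
    rw [h3] at h2
    have h4 : (f : ℝ) / 2 ≤ k * S.card := by linarith
    have h5 : (f : ℝ) / 2 * t ≤ k * r := by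
      calc (f : ℝ) / 2 * t ≤ k * S.card * t := mul_le_mul_of_nonneg_right h4 ht0.le
        _ = k * (S.card * t) := by ring
        _ ≤ k * r := mul_le_mul_of_nonneg_left hS1 hk0.le
    have h6 : (f : ℝ) / 2 * t * (4 * N * k) = f ^ 2 := by
      rw [ht]; field_simp; ring
    have h7 : (f : ℝ) ^ 2 ≤ k * r * (4 * N * k) := by
      rw [← h6]
      exact mul_le_mul_of_nonneg_right h5 (by positivity)
    have h8 : (k : ℝ) * r * (4 * N * k) = 4 * N * k ^ 2 * r := by ring
    rw [h8] at h7
    exact absurd hcon' (not_lt.mpr h7)
  -- iterate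
  have iter : ∀ i : ℕ, i ≤ N → ∃ W : Finset P, rho W + i ≤ N ∧ (v : ℝ) - i * t ≤ W.card := by
    intro i
    induction i with
    | zero =>
      intro _
      exact ⟨univ, by simpa using hN, by rw [hcardP]; simp⟩
    | succ i ih =>
      intro hi
      obtain ⟨W, hW1, hW2⟩ := ih (by omega)
      have hiN : (i : ℝ) ≤ N := by exact_mod_cast (by omega : i ≤ N)
      obtain ⟨x, hx, b, hR, hb⟩ := step W (by
        have : (i : ℝ) * t ≤ N * t := mul_le_mul_of_nonneg_right hiN ht0.le
        linarith)
      refine ⟨W.filter fun y => ¬ R y b, ?_, ?_⟩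
      · have := hrho W x b hx hR
        omega
      · have h1 : (W.filter fun y => R y b).card + (W.filter fun y => ¬ R y b).card = W.card :=
          Finset.card_filter_add_card_filter_not _
        have h2 : (W.filter fun y => R y b).card ≤ (univ.filter fun y => R y b).card :=
          Finset.card_le_card (Finset.filter_subset_filter _ (Finset.subset_univ _))
        have h1' : ((W.filter fun y => R y b).card : ℝ) + (W.filter fun y => ¬ R y b).card =
            W.card := by exact_mod_cast h1
        have h2' : ((W.filter fun y => R y b).card : ℝ) ≤ (univ.filter fun y => R y b).card := by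
          exact_mod_cast h2
        push_cast
        linarith
  obtain ⟨W, hW1, hW2⟩ := iter N le_rfl
  obtain ⟨x, hx, b, hR, -⟩ := step W hW2
  have := hrho W x b hx hR
  omega

end Robust

end Pool.Agent.H680.HallRank
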