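import Pool.Agent.H680.HallMixed
import Pool.Graph.R_pool_sql_team_seeded_620a6dc7.Helper17_Hall.Weak

/-!
# Sign tests, equalities and comparisons of labels, and relations of small rank

Helper file for `MP_c38931_co.ZariskiOpenIncidence`.
-/

set_option autoImplicit false
set_option linter.unusedSectionVars false

namespace Pool.Agent.H680.HallRank

open Finset

open Classical in
/-- Symmetric designs on `Fin v` whose incidence is a union of `L` relations, each the conjunction
of a Boolean combination of `s` sign tests, of an equality of labels, of `c` comparisons of labels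
and of a relation of rank at most `N`. -/
theorem signed_fin {v k lam : ℕ} {inc : Fin v → Fin v → Prop} (h : IsSymmetricDesign inc v k lam)
    (hlam : 1 ≤ lam) (hk : 2 ≤ k) (hkv : k < v) (L c N s d : ℕ)
    (a a' : Fin s → Fin v → Fin d → ℝ) (sg : Fin L → Set (Fin s → Prop)) {Lab : Type}
    (al : Fin L → Fin v → Lab) (be : Fin L → Fin v → Lab) (Lin : Fin L → Fin c → Type)
    [∀ l i, LinearOrder (Lin l i)] (ga : ∀ l i, Fin v → Lin l i) (de : ∀ l i, Fin v → Lin l i)
    (O : Fin L → Fin v → Fin v → Prop)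
    (hinc : ∀ x b, inc x b ↔ ∃ l, (fun i => 0 < a i x ⬝ᵥ a' i b) ∈ sg l ∧ al l x = be l b ∧
      (∀ i, ga l i x ≤ de l i b) ∧ O l x b)
    (rho : Fin L → Finset (Fin v) → ℕ)
    (hrho : ∀ l (W : Finset (Fin v)) (x b : Fin v), x ∈ W → O l x b →
      rho l (W.filter fun y => ¬ O l y b) + 1 ≤ rho l W) (hN : ∀ l W, rho l W ≤ N)
    (M : ℕ) (hM : M = ((8 * (d + 1)) * (8 * (d + 1) + 1) ^ (d + 1)) ^ s) :
    k ≤ M ^ 2 + 2 * M * ((lam + 1) * (L * N) * (Nat.log 2 v + 1) ^ c) := by
  -- the blocks as sets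
  set Bk : Fin v → Finset (Fin v) := fun j => univ.filter fun i => inc i j with hBk
  have hmem : ∀ i j, i ∈ Bk j ↔ inc i j := fun i j => by simp [hBk]
  have hsize : ∀ j, (Bk j).card = k := fun j => card_block h j
  have hpair : ∀ x y : Fin v, x ≠ y →
      (Finset.univ.filter (fun j => x ∈ Bk j ∧ y ∈ Bk j)).card = lam := by
    intro x y hxy
    rw [← card_pair h hxy]
    congr 1
    ext j
    simp [hBk]
  obtain ⟨hr, hkk⟩ := Pool.Agent.Helper17_Hall.repl v k lam (by omega) hlam Bk hsize hpair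
  have hv1 : ((v - 1 : ℕ) : ℝ) = (v : ℝ) - 1 := by
    rw [Nat.cast_sub (by omega)]
    norm_num
  have hkkR : (k : ℝ) * k = lam * ((v : ℝ) - 1) + k := by
    rw [← hv1]
    exact_mod_cast hkk
  have hlk : lam < k := lam_lt h hk hkv
  have hlkR : (lam : ℝ) < k := by exact_mod_cast hlk
  have hk0 : (0 : ℝ) < k := by exact_mod_cast (by omega : 0 < k)
  have hv0 : (0 : ℝ) < v := by exact_mod_cast (by omega : 0 < v)
  -- a homogeneous rectangle
  obtain ⟨P, -, Q, -, hP, hQ, hhom⟩ :=
    Pool.Agent.Helper17_Hall.homog_many (univ : Finset (Fin v)) univ a a' (univ : Finset (Fin s))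
  rw [card_univ, Fintype.card_fin, card_univ, Fintype.card_fin] at hP hQ
  have hPQ : v * v ≤ M * (P.card * Q.card) := by
    calc v * v ≤ ((8 * (d + 1)) ^ s * P.card) *
          (((8 * (d + 1) + 1) ^ (d + 1)) ^ s * Q.card) := Nat.mul_le_mul hP hQ
      _ = M * (P.card * Q.card) := by
          rw [hM]
          generalize (8 * (d + 1) + 1) ^ (d + 1) = B0
          generalize 8 * (d + 1) = A0
          rw [mul_pow]
          ring
  have hPQR : (v : ℝ) * v ≤ M * ((P.card : ℝ) * Q.card) := by exact_mod_cast hPQ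
  have hMpos : (0 : ℝ) < M := by
    have : 0 < M := by rw [hM]; positivity
    exact_mod_cast this
  -- the truth values on the rectangle
  set tau : Fin s → Prop := fun i => ∀ x ∈ P, ∀ y ∈ Q, 0 < a i x ⬝ᵥ a' i y with htau
  have hpat : ∀ x ∈ P, ∀ b ∈ Q, (fun i => 0 < a i x ⬝ᵥ a' i b) = tau := by
    intro x hx b hb
    funext i
    apply propext
    rcases hhom i (mem_univ i) with h1 | h1
    · exact ⟨fun _ => h1, fun _ => h1 x hx b hb⟩
    · exact ⟨fun h2 => absurd h2 (h1 x hx b hb), fun h2 => h2 x hx b hb⟩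
  -- the count of the incidences in the rectangle
  have hcount : (univ.filter fun p : Fin v × Fin v => ∃ l,
      ((al l p.1, if p.1 ∈ P then (0 : ℕ) else 1) =
        (be l p.2, if p.2 ∈ Q ∧ tau ∈ sg l then (0 : ℕ) else 2)) ∧
      (∀ i, ga l i p.1 ≤ de l i p.2) ∧ O l p.1 p.2).card ≤
        (lam + 1) * (L * N) * (Nat.log 2 v + 1) ^ c * v := by
    have := mixed_bound h L c N (fun l x => (al l x, if x ∈ P then (0 : ℕ) else 1))
      (fun l b => (be l b, if b ∈ Q ∧ tau ∈ sg l then (0 : ℕ) else 2)) Lin ga de O (by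
        intro l x b hlab hcmp hO
        rw [Prod.mk.injEq] at hlab
        obtain ⟨h1, h2⟩ := hlab
        have hx : x ∈ P := by
          by_contra hx
          rw [if_neg hx] at h2
          rcases Classical.em (b ∈ Q ∧ tau ∈ sg l) with hb | hb
          · rw [if_pos hb] at h2; exact absurd h2 (by norm_num)
          · rw [if_neg hb] at h2; exact absurd h2 (by norm_num)
        have hb : b ∈ Q ∧ tau ∈ sg l := by
          by_contra hb
          rw [if_neg hb, if_pos hx] at h2
          exact absurd h2 (by norm_num)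
        exact (hinc x b).mpr ⟨l, by rw [hpat x hx b hb.1]; exact hb.2, h1, hcmp, hO⟩)
      rho hrho hN
    convert this
  have hsub : (univ.filter fun p : Fin v × Fin v => inc p.1 p.2 ∧ p.1 ∈ P ∧ p.2 ∈ Q) ⊆
      (univ.filter fun p : Fin v × Fin v => ∃ l,
      ((al l p.1, if p.1 ∈ P then (0 : ℕ) else 1) =
        (be l p.2, if p.2 ∈ Q ∧ tau ∈ sg l then (0 : ℕ) else 2)) ∧
      (∀ i, ga l i p.1 ≤ de l i p.2) ∧ O l p.1 p.2) := by
    intro p hp
    obtain ⟨-, h1, h2, h3⟩ := Finset.mem_filter.mp hp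
    obtain ⟨l, h4, h5, h6, h7⟩ := (hinc p.1 p.2).mp h1
    rw [hpat p.1 h2 p.2 h3] at h4
    refine Finset.mem_filter.mpr ⟨mem_univ _, l, ?_, h6, h7⟩
    rw [if_pos h2, if_pos ⟨h3, h4⟩, h5]
  have hE : (univ.filter fun p : Fin v × Fin v => inc p.1 p.2 ∧ p.1 ∈ P ∧ p.2 ∈ Q).card ≤
      (lam + 1) * (L * N) * (Nat.log 2 v + 1) ^ c * v := (Finset.card_le_card hsub).trans hcount
  -- the mixing lemma
  have hmix := Pool.Agent.Helper17_Hall.rect_sum_abs hk hkv hr hpair hkkR hlkR P Q
  have hsum : ∑ x ∈ P, ∑ y ∈ Q, Pool.Agent.Helper17_Hall.Dm k Bk x y =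
      (v : ℝ) / k * ((univ.filter fun p : Fin v × Fin v =>
        inc p.1 p.2 ∧ p.1 ∈ P ∧ p.2 ∈ Q).card : ℝ) - P.card * Q.card := by
    have e1 : ((univ.filter fun p : Fin v × Fin v => inc p.1 p.2 ∧ p.1 ∈ P ∧ p.2 ∈ Q).card : ℝ) =
        ∑ x ∈ P, ∑ y ∈ Q, (if inc x y then (1 : ℝ) else 0) := by
      rw [← Finset.sum_product', ← Finset.sum_filter, Finset.sum_const, nsmul_eq_mul, mul_one]
      congr 2
      ext p
      simp only [Finset.mem_filter, Finset.mem_univ, true_and, Finset.mem_product]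
      tauto
    rw [e1]
    unfold Pool.Agent.Helper17_Hall.Dm Pool.Agent.Helper17_Hall.inc
    simp only [hmem, Finset.sum_sub_distrib, ← Finset.mul_sum, Finset.sum_const, nsmul_eq_mul,
      mul_one]
  rw [hsum] at hmix
  set E : ℝ := ((univ.filter fun p : Fin v × Fin v =>
        inc p.1 p.2 ∧ p.1 ∈ P ∧ p.2 ∈ Q).card : ℝ) with hEdef
  set X : ℝ := (((lam + 1) * (L * N) * (Nat.log 2 v + 1) ^ c : ℕ) : ℝ) with hX
  have hEX : E ≤ X * v := by
    rw [hEdef, hX]
    exact_mod_cast hE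
  have hX0 : 0 ≤ X := Nat.cast_nonneg _
  have h1 : (P.card : ℝ) * Q.card ≤ (v : ℝ) / k * E + (v : ℝ) / k * Real.sqrt k * v := by
    have h2 := (abs_le.mp hmix).1
    have h3 : Real.sqrt (((v : ℝ) / k) ^ 2 * (k - lam)) ≤ (v : ℝ) / k * Real.sqrt k := by
      rw [Real.sqrt_mul (by positivity), Real.sqrt_sq (by positivity)]
      apply mul_le_mul_of_nonneg_left _ (by positivity)
      apply Real.sqrt_le_sqrt
      have : (0 : ℝ) ≤ lam := Nat.cast_nonneg _
      linarith
    have h4 : Real.sqrt (((v : ℝ) / k) ^ 2 * (k - lam)) * v ≤ (v : ℝ) / k * Real.sqrt k * v :=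
      mul_le_mul_of_nonneg_right h3 hv0.le
    linarith
  have h5 : (k : ℝ) ≤ M * (X + Real.sqrt k) := by
    have h6 : (v : ℝ) * v ≤ M * ((v : ℝ) / k * (X * v) + (v : ℝ) / k * Real.sqrt k * v) := by
      refine hPQR.trans (mul_le_mul_of_nonneg_left ?_ hMpos.le)
      refine h1.trans ?_
      have : (v : ℝ) / k * E ≤ (v : ℝ) / k * (X * v) :=
        mul_le_mul_of_nonneg_left hEX (by positivity)
      linarith
    have h7 : M * ((v : ℝ) / k * (X * v) + (v : ℝ) / k * Real.sqrt k * v) =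
        (v : ℝ) * v * (M * (X + Real.sqrt k) / k) := by
      field_simp
    rw [h7] at h6
    have h8 : 1 ≤ M * (X + Real.sqrt k) / k := by
      by_contra hc
      push Not at hc
      have : (v : ℝ) * v * (M * (X + Real.sqrt k) / k) < v * v * 1 :=
        mul_lt_mul_of_pos_left hc (by positivity)
      linarith
    rwa [one_le_div hk0] at h8
  have h9 : (k : ℝ) ≤ M ^ 2 + 2 * M * X := by
    have h10 : Real.sqrt k * Real.sqrt k = k := Real.mul_self_sqrt hk0.le
    nlinarith [sq_nonneg (Real.sqrt k - M), Real.sqrt_nonneg (k : ℝ)]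
  rw [hX] at h9
  exact_mod_cast h9

end Pool.Agent.H680.HallRank
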